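import Pool.Agent.Helper15.DW.Asm

/-!
# MP_a7f513_an, Q1: a fixed-point-free holomorphic self-map of `B × B`, `B` the euclidean unit
ball of `ℂ²`, for which no factor of any orbit leaves the compact subsets of `B`

This is the negative answer to Q1 in the words of the problem file, with a stronger conclusion:
not only do the iterates of neither factor converge to a common boundary point for all starting
points, for **no** starting point and **no** factor do they converge to a boundary point.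
-/

set_option autoImplicit false
open Metric Set Filter Topology

namespace Pool.Agent.Results.MP_a7f513_an.NoFactorEscapes

/-- The Denjoy-Wolff property of a set `D` (a bounded convex domain) in a complex normed space:
for every holomorphic `f : D → D` without a fixed point there is a boundary point `p` of `D` such
that the iterates `f^[m] z` tend to `p` for every `z ∈ D`. -/
def DenjoyWolff {V : Type*} [NormedAddCommGroup V] [NormedSpace ℂ V] (D : Set V) : Prop :=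
  ∀ f : V → V, DifferentiableOn ℂ f D → MapsTo f D D → (∀ z ∈ D, f z ≠ z) →
    ∃ p ∈ frontier D, ∀ z ∈ D, Tendsto (fun m : ℕ => f^[m] z) atTop (𝓝 p)

open Pool.Agent.DW Pool.Agent.Helper1.DW

/-- `ℂ²` with the euclidean norm -/
abbrev E2 : Type := EuclideanSpace ℂ (Fin 2)

theorem denjoyWolff_ball2' : DenjoyWolff (ball (0 : E2) 1) := by
  intro f hf hm hfix
  obtain ⟨p, hp, hlim⟩ := denjoyWolff_ball hf hm
    (fun z hz => hfix z (by simpa using hz))
  refine ⟨p, ?_, fun z hz => hlim z (by simpa using hz)⟩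
  rw [frontier_ball _ one_ne_zero]
  simpa using hp

lemma step {r C : ℝ} (hr : r < 1) (hC : 0 < C) :
    ∃ r' < (1 : ℝ), ∀ a z : E2, ‖a‖ ≤ r → ‖z‖ < 1 → Q a z ≤ C → ‖z‖ ≤ r' := by
  refine ⟨Real.sqrt (1 - (1 - r) ^ 2 / C), ?_, ?_⟩
  · rw [Real.sqrt_lt' one_pos]
    have : 0 < (1 - r) ^ 2 / C := div_pos (by nlinarith) hC
    linarith
  · intro a z ha hz hQ
    have h := norm_bound_of_Q_le hr ha hz hQ
    apply Real.le_sqrt_of_sq_le
    have h2 : (1 - r) ^ 2 / C ≤ 1 - ‖z‖ ^ 2 := by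
      rw [div_le_iff₀ hC]
      linarith
    linarith

/-- a Harnack type inequality on `B × B`, uniform over all holomorphic maps into `B` -/
lemma harnack {r : ℝ} (hr : r < 1) {a z : E2 × E2}
    (ha : a ∈ ball (0 : E2) 1 ×ˢ ball (0 : E2) 1) (hz : z ∈ ball (0 : E2) 1 ×ˢ ball (0 : E2) 1) :
    ∃ r' < (1 : ℝ), ∀ G : E2 × E2 → E2, DifferentiableOn ℂ G (ball (0 : E2) 1 ×ˢ ball (0 : E2) 1) →
      MapsTo G (ball (0 : E2) 1 ×ˢ ball (0 : E2) 1) (ball (0 : E2) 1) → ‖G a‖ ≤ r → ‖G z‖ ≤ r' := by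
  obtain ⟨a1, a2⟩ := a
  obtain ⟨z1, z2⟩ := z
  obtain ⟨ha1, ha2⟩ := ha
  obtain ⟨hz1, hz2⟩ := hz
  simp only [] at ha1 ha2 hz1 hz2
  have na1 : ‖a1‖ < 1 := by simpa using ha1
  have na2 : ‖a2‖ < 1 := by simpa using ha2
  have nz1 : ‖z1‖ < 1 := by simpa using hz1
  have nz2 : ‖z2‖ < 1 := by simpa using hz2
  obtain ⟨r1, hr1, h1⟩ := step hr (Q_pos na1 nz1)
  obtain ⟨r2, hr2, h2⟩ := step hr1 (Q_pos na2 nz2)
  refine ⟨r2, hr2, fun G hG hGm hGa => ?_⟩
  have m1 : MapsTo (fun x : E2 => (x, a2)) (ball (0 : E2) 1)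
      (ball (0 : E2) 1 ×ˢ ball (0 : E2) 1) := fun x hx => ⟨hx, ha2⟩
  have m2 : MapsTo (fun x : E2 => (z1, x)) (ball (0 : E2) 1)
      (ball (0 : E2) 1 ×ˢ ball (0 : E2) 1) := fun x hx => ⟨hz1, hx⟩
  have d1 : DifferentiableOn ℂ (fun x : E2 => G (x, a2)) (ball (0 : E2) 1) :=
    hG.comp (by fun_prop) m1
  have d2 : DifferentiableOn ℂ (fun x : E2 => G (z1, x)) (ball (0 : E2) 1) :=
    hG.comp (by fun_prop) m2
  have q1 : Q (G (a1, a2)) (G (z1, a2)) ≤ Q a1 z1 := Q_map_le d1 (hGm.comp m1) na1 nz1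
  have q2 : Q (G (z1, a2)) (G (z1, z2)) ≤ Q a2 z2 := Q_map_le d2 (hGm.comp m2) na2 nz2
  have b1 : ‖G (z1, a2)‖ < 1 := by simpa using hGm (m1 hz1)
  have b2 : ‖G (z1, z2)‖ < 1 := by simpa using hGm (m2 hz2)
  exact h2 _ _ (h1 _ _ hGa b1 q1) b2 q2

/-- the linear identification of `ℂ² × ℂ²` (euclidean norms) with `Fin 2 → Fin 2 → ℂ` -/
noncomputable def toPi (z : E2 × E2) : Fin 2 → Fin 2 → ℂ :=
  ![(EuclideanSpace.equiv (Fin 2) ℂ) z.1, (EuclideanSpace.equiv (Fin 2) ℂ) z.2]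

/-- the inverse of `toPi` -/
noncomputable def ofPi (w : Fin 2 → Fin 2 → ℂ) : E2 × E2 :=
  ((EuclideanSpace.equiv (Fin 2) ℂ).symm (w 0), (EuclideanSpace.equiv (Fin 2) ℂ).symm (w 1))

lemma toPi_ofPi (w : Fin 2 → Fin 2 → ℂ) : toPi (ofPi w) = w := by
  funext i
  fin_cases i
  · exact (EuclideanSpace.equiv (Fin 2) ℂ).apply_symm_apply (w 0)
  · exact (EuclideanSpace.equiv (Fin 2) ℂ).apply_symm_apply (w 1)

lemma ofPi_toPi (z : E2 × E2) : ofPi (toPi z) = z := by
  simp [toPi, ofPi]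

lemma diff_toPi : Differentiable ℂ toPi := by
  rw [differentiable_pi]
  intro i
  fin_cases i
  · exact (EuclideanSpace.equiv (Fin 2) ℂ).differentiable.comp differentiable_fst
  · exact (EuclideanSpace.equiv (Fin 2) ℂ).differentiable.comp differentiable_snd

lemma diff_ofPi : Differentiable ℂ ofPi := by
  refine Differentiable.prodMk ?_ ?_
  · exact (EuclideanSpace.equiv (Fin 2) ℂ).symm.differentiable.comp (differentiable_apply 0)
  · exact (EuclideanSpace.equiv (Fin 2) ℂ).symm.differentiable.comp (differentiable_apply 1)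

lemma norm_sq_eq (w : Fin 2 → ℂ) :
    ‖(EuclideanSpace.equiv (Fin 2) ℂ).symm w‖ ^ 2 = ‖w 0‖ ^ 2 + ‖w 1‖ ^ 2 := by
  have h := norm_toE_sq w
  rw [Fin.sum_univ_two] at h
  exact h

lemma mem_ball_iff' (w : Fin 2 → ℂ) :
    (EuclideanSpace.equiv (Fin 2) ℂ).symm w ∈ ball (0 : E2) 1 ↔ w ∈ D0 := by
  rw [mem_ball_zero_iff]
  have h := norm_sq_eq w
  have h0 := norm_nonneg ((EuclideanSpace.equiv (Fin 2) ℂ).symm w)
  constructor
  · intro h1
    show ‖w 0‖ ^ 2 + ‖w 1‖ ^ 2 < 1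
    nlinarith
  · intro h1
    have h2 : ‖w 0‖ ^ 2 + ‖w 1‖ ^ 2 < 1 := h1
    by_contra hcon
    push Not at hcon
    nlinarith

lemma mem_ofPi (w : Fin 2 → Fin 2 → ℂ) :
    ofPi w ∈ ball (0 : E2) 1 ×ˢ ball (0 : E2) 1 ↔ w ∈ (univ.pi fun _ => D0) := by
  constructor
  · rintro ⟨h0, h1⟩ i _
    fin_cases i
    · exact (mem_ball_iff' _).mp h0
    · exact (mem_ball_iff' _).mp h1
  · intro h
    exact ⟨(mem_ball_iff' _).mpr (h 0 (mem_univ _)), (mem_ball_iff' _).mpr (h 1 (mem_univ _))⟩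

/-- **Negative answer to Q1 (stronger form).** Let `B` be the euclidean unit ball of `ℂ²`, a
bounded convex domain. It has the Denjoy-Wolff property, and there is a holomorphic map
`F : B × B → B × B` without fixed points such that for **every** starting point `z ∈ B × B` there
is a radius `r < 1` with `‖π_1 (F^[m] z)‖ ≤ r` for infinitely many `m` and `‖π_2 (F^[m] z)‖ ≤ r`
for infinitely many `m`. So for no `z` and no factor do the iterates `π_j (F^[m] z)` converge to a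
boundary point of `B`. -/
theorem result :
    DenjoyWolff (ball (0 : EuclideanSpace ℂ (Fin 2)) 1) ∧
    ∃ F : EuclideanSpace ℂ (Fin 2) × EuclideanSpace ℂ (Fin 2) →
        EuclideanSpace ℂ (Fin 2) × EuclideanSpace ℂ (Fin 2),
      DifferentiableOn ℂ F (ball 0 1 ×ˢ ball 0 1) ∧
      MapsTo F (ball 0 1 ×ˢ ball 0 1) (ball 0 1 ×ˢ ball 0 1) ∧
      (∀ z ∈ ball (0 : EuclideanSpace ℂ (Fin 2)) 1 ×ˢ ball (0 : EuclideanSpace ℂ (Fin 2)) 1,
        F z ≠ z) ∧
      ∀ z ∈ ball (0 : EuclideanSpace ℂ (Fin 2)) 1 ×ˢ ball (0 : EuclideanSpace ℂ (Fin 2)) 1,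
        ∃ r < (1 : ℝ), (∃ᶠ m : ℕ in atTop, ‖(F^[m] z).1‖ ≤ r) ∧
          (∃ᶠ m : ℕ in atTop, ‖(F^[m] z).2‖ ≤ r) := by
  refine ⟨denjoyWolff_ball2', ?_⟩
  obtain ⟨F, hF1, hF2, hF3, z0, hz0, η, hη, hrec⟩ := exists_F
  have hto : MapsTo toPi (ball (0 : E2) 1 ×ˢ ball (0 : E2) 1) (univ.pi fun _ => D0) := by
    intro z hz
    rw [← mem_ofPi, ofPi_toPi]
    exact hz
  have hof : MapsTo ofPi (univ.pi fun _ => D0) (ball (0 : E2) 1 ×ˢ ball (0 : E2) 1) :=
    fun w hw => (mem_ofPi w).mpr hw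
  have hD : DifferentiableOn ℂ (fun z => ofPi (F (toPi z)))
      (ball (0 : E2) 1 ×ˢ ball (0 : E2) 1) :=
    diff_ofPi.comp_differentiableOn (hF1.comp diff_toPi.differentiableOn hto)
  have hM : MapsTo (fun z => ofPi (F (toPi z))) (ball (0 : E2) 1 ×ˢ ball (0 : E2) 1)
      (ball (0 : E2) 1 ×ˢ ball (0 : E2) 1) := hof.comp (hF2.comp hto)
  have hit : ∀ (m : ℕ) (w : Fin 2 → Fin 2 → ℂ),
      (fun z => ofPi (F (toPi z)))^[m] (ofPi w) = ofPi (F^[m] w) := by
    intro m w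
    induction m with
    | zero => rfl
    | succ m ih =>
      rw [Function.iterate_succ_apply', ih, Function.iterate_succ_apply', toPi_ofPi]
  have hDm : ∀ m : ℕ, DifferentiableOn ℂ ((fun z => ofPi (F (toPi z)))^[m])
      (ball (0 : E2) 1 ×ˢ ball (0 : E2) 1) := by
    intro m
    induction m with
    | zero => exact differentiableOn_id
    | succ m ih =>
      rw [Function.iterate_succ']
      exact hD.comp ih (hM.iterate m)
  have hMm : ∀ m : ℕ, MapsTo ((fun z => ofPi (F (toPi z)))^[m])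
      (ball (0 : E2) 1 ×ˢ ball (0 : E2) 1) (ball (0 : E2) 1 ×ˢ ball (0 : E2) 1) :=
    fun m => hM.iterate m
  refine ⟨fun z => ofPi (F (toPi z)), hD, hM, ?_, ?_⟩
  · intro z hz hcon
    apply hF3 (toPi z) (hto hz)
    have h1 := congrArg toPi hcon
    simpa only [toPi_ofPi] using h1
  · intro z hz
    have hr0 : Real.sqrt (1 - η) < 1 := by
      rw [Real.sqrt_lt' one_pos]
      linarith
    have ha : ofPi z0 ∈ ball (0 : E2) 1 ×ˢ ball (0 : E2) 1 := hof hz0
    obtain ⟨r, hr, hH⟩ := harnack hr0 ha hz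
    refine ⟨r, hr, ?_, ?_⟩
    · refine (hrec 0).mono fun m hm => ?_
      refine hH (fun x => ((fun z => ofPi (F (toPi z)))^[m] x).1) (hDm m).fst
        (fun x hx => (hMm m hx).1) ?_
      show ‖((fun z => ofPi (F (toPi z)))^[m] (ofPi z0)).1‖ ≤ _
      rw [hit]
      apply Real.le_sqrt_of_sq_le
      show ‖(EuclideanSpace.equiv (Fin 2) ℂ).symm ((F^[m] z0) 0)‖ ^ 2 ≤ _
      rw [norm_sq_eq]
      exact hm
    · refine (hrec 1).mono fun m hm => ?_
      refine hH (fun x => ((fun z => ofPi (F (toPi z)))^[m] x).2) (hDm m).snd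
        (fun x hx => (hMm m hx).2) ?_
      show ‖((fun z => ofPi (F (toPi z)))^[m] (ofPi z0)).2‖ ≤ _
      rw [hit]
      apply Real.le_sqrt_of_sq_le
      show ‖(EuclideanSpace.equiv (Fin 2) ℂ).symm ((F^[m] z0) 1)‖ ^ 2 ≤ _
      rw [norm_sq_eq]
      exact hm

end Pool.Agent.Results.MP_a7f513_an.NoFactorEscapes
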